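import Mathlib

/-!
# The trace of Frobenius and its counting function
-/

set_option autoImplicit false

namespace SSF

/-- the trace of Frobenius `a_p = p + 1 - |E(𝔽_p)| = p - (number of affine points modulo p)` of the
curve with integral Weierstrass equation `W` -/
noncomputable def ap (W : WeierstrassCurve ℤ) (p : ℕ) : ℤ :=
  (p : ℤ) - (Nat.card {P : ZMod p × ZMod p //
    P.2 ^ 2 + (W.a₁ : ZMod p) * P.1 * P.2 + (W.a₃ : ZMod p) * P.2 =
      P.1 ^ 3 + (W.a₂ : ZMod p) * P.1 ^ 2 + (W.a₄ : ZMod p) * P.1 + (W.a₆ : ZMod p)} : ℕ)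

/-- the number of primes `p ≤ x` not dividing the discriminant of `W` with `a_p = r` -/
noncomputable def cnt (W : WeierstrassCurve ℤ) (r : ℤ) (x : ℝ) : ℕ :=
  {p : ℕ | p.Prime ∧ (p : ℝ) ≤ x ∧ ¬ (p : ℤ) ∣ W.Δ ∧ ap W p = r}.ncard

end SSF
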