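import Pool.Agent.SSF.Targets
import Pool.Agent.SSF.Trace

/-!
# MP_d74fca_nt: from a general integral Weierstrass equation to a short one (helper22)
-/

set_option autoImplicit false

namespace SSF

namespace WEI_

lemma disc (W : WeierstrassCurve ℤ) :
    4 * (-27 * W.c₄) ^ 3 + 27 * (-54 * W.c₆) ^ 2 = -136048896 * W.Δ := by
  have h := W.c_relation
  linear_combination (-78732) * (-h)

end WEI_

open WEI_ in
/-- the supersingular primes of the short model are supersingular primes of `W` -/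
theorem p_WEI (W : WeierstrassCurve ℤ) (p : ℕ) (h : p ∈ SS (-27 * W.c₄) (-54 * W.c₆)) :
    p.Prime ∧ ¬ (p : ℤ) ∣ W.Δ ∧ ap W p = 0 := by
  obtain ⟨hp, hd, hc⟩ := h
  rw [disc] at hd
  have hΔ : ¬ (p : ℤ) ∣ W.Δ := fun h => hd (by
    have : (6 : ℤ) * (-136048896 * W.Δ) = (6 * -136048896) * W.Δ := by ring
    rw [this]
    exact h.mul_left _)
  have : Fact p.Prime := ⟨hp⟩
  have h6 : ¬ (p : ℤ) ∣ 6 := fun h => hd (h.mul_right _)
  have h2 : (2 : ZMod p) ≠ 0 := by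
    intro h
    apply h6
    have : (p : ℤ) ∣ 2 := by
      rw [← ZMod.intCast_zmod_eq_zero_iff_dvd (2 : ℤ) p]
      exact_mod_cast h
    exact this.trans (by norm_num)
  have h3 : (3 : ZMod p) ≠ 0 := by
    intro h
    apply h6
    have : (p : ℤ) ∣ 3 := by
      rw [← ZMod.intCast_zmod_eq_zero_iff_dvd (3 : ℤ) p]
      exact_mod_cast h
    exact this.trans (by norm_num)
  refine ⟨hp, hΔ, ?_⟩
  have h36 : (36 : ZMod p) ≠ 0 := by
    have : (36 : ZMod p) = 2 ^ 2 * 3 ^ 2 := by norm_num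
    rw [this]
    exact mul_ne_zero (pow_ne_zero _ h2) (pow_ne_zero _ h3)
  have h108 : (108 : ZMod p) ≠ 0 := by
    have : (108 : ZMod p) = 2 ^ 2 * 3 ^ 3 := by norm_num
    rw [this]
    exact mul_ne_zero (pow_ne_zero _ h2) (pow_ne_zero _ h3)
  have h46656 : (46656 : ZMod p) ≠ 0 := by
    have : (46656 : ZMod p) = 2 ^ 6 * 3 ^ 6 := by norm_num
    rw [this]
    exact mul_ne_zero (pow_ne_zero _ h2) (pow_ne_zero _ h3)
  have key : ∀ x y : ZMod p,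
      (108 * (2 * y + (W.a₁ : ZMod p) * x + (W.a₃ : ZMod p))) ^ 2 =
        (36 * x + 3 * (W.b₂ : ZMod p)) ^ 3 + ((-27 * W.c₄ : ℤ) : ZMod p) *
          (36 * x + 3 * (W.b₂ : ZMod p)) + ((-54 * W.c₆ : ℤ) : ZMod p) ↔
      y ^ 2 + (W.a₁ : ZMod p) * x * y + (W.a₃ : ZMod p) * y =
        x ^ 3 + (W.a₂ : ZMod p) * x ^ 2 + (W.a₄ : ZMod p) * x + (W.a₆ : ZMod p) := by
    intro x y
    have hid : (108 * (2 * y + (W.a₁ : ZMod p) * x + (W.a₃ : ZMod p))) ^ 2 -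
        ((36 * x + 3 * (W.b₂ : ZMod p)) ^ 3 + ((-27 * W.c₄ : ℤ) : ZMod p) *
          (36 * x + 3 * (W.b₂ : ZMod p)) + ((-54 * W.c₆ : ℤ) : ZMod p)) =
        46656 * ((y ^ 2 + (W.a₁ : ZMod p) * x * y + (W.a₃ : ZMod p) * y) -
          (x ^ 3 + (W.a₂ : ZMod p) * x ^ 2 + (W.a₄ : ZMod p) * x + (W.a₆ : ZMod p))) := by
      simp only [WeierstrassCurve.c₄, WeierstrassCurve.c₆, WeierstrassCurve.b₂,
        WeierstrassCurve.b₄, WeierstrassCurve.b₆]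
      push_cast
      ring
    constructor
    · intro h
      rw [h, sub_self] at hid
      exact sub_eq_zero.mp ((mul_eq_zero.mp hid.symm).resolve_left h46656)
    · intro h
      rw [h, sub_self, mul_zero] at hid
      exact sub_eq_zero.mp hid
  have hb : Function.Bijective (fun P : {P : ZMod p × ZMod p //
      P.2 ^ 2 + (W.a₁ : ZMod p) * P.1 * P.2 + (W.a₃ : ZMod p) * P.2 =
        P.1 ^ 3 + (W.a₂ : ZMod p) * P.1 ^ 2 + (W.a₄ : ZMod p) * P.1 + (W.a₆ : ZMod p)} =>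
      (⟨(36 * P.1.1 + 3 * (W.b₂ : ZMod p),
          108 * (2 * P.1.2 + (W.a₁ : ZMod p) * P.1.1 + (W.a₃ : ZMod p))),
          (key P.1.1 P.1.2).mpr P.2⟩ :
        {P : ZMod p × ZMod p // P.2 ^ 2 = P.1 ^ 3 + ((-27 * W.c₄ : ℤ) : ZMod p) * P.1 +
          ((-54 * W.c₆ : ℤ) : ZMod p)})) := by
    constructor
    · rintro ⟨⟨x, y⟩, hP⟩ ⟨⟨x', y'⟩, hP'⟩ hxy
      simp only [Subtype.mk.injEq, Prod.mk.injEq] at hxy ⊢
      obtain ⟨e1, e2⟩ := hxy
      have hx : x = x' := mul_left_cancel₀ h36 (by linear_combination e1)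
      subst hx
      refine ⟨rfl, ?_⟩
      exact mul_left_cancel₀ h2 (mul_left_cancel₀ h108 (by linear_combination e2))
    · rintro ⟨⟨u, v⟩, hP⟩
      have hu : 36 * ((u - 3 * (W.b₂ : ZMod p)) / 36) + 3 * (W.b₂ : ZMod p) = u := by
        rw [mul_div_cancel₀ _ h36]
        ring
      have hv : 108 * (2 * ((v / 108 - (W.a₁ : ZMod p) * ((u - 3 * (W.b₂ : ZMod p)) / 36) -
          (W.a₃ : ZMod p)) / 2) + (W.a₁ : ZMod p) * ((u - 3 * (W.b₂ : ZMod p)) / 36) +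
          (W.a₃ : ZMod p)) = v := by
        rw [mul_div_cancel₀ _ h2]
        have : v / 108 - (W.a₁ : ZMod p) * ((u - 3 * (W.b₂ : ZMod p)) / 36) - (W.a₃ : ZMod p) +
          (W.a₁ : ZMod p) * ((u - 3 * (W.b₂ : ZMod p)) / 36) + (W.a₃ : ZMod p) = v / 108 := by ring
        rw [this, mul_div_cancel₀ _ h108]
      refine ⟨⟨((u - 3 * (W.b₂ : ZMod p)) / 36,
        (v / 108 - (W.a₁ : ZMod p) * ((u - 3 * (W.b₂ : ZMod p)) / 36) -
          (W.a₃ : ZMod p)) / 2), (key _ _).mp ?_⟩, ?_⟩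
      · rw [hu, hv]
        exact hP
      · simp only [Subtype.mk.injEq, Prod.mk.injEq]
        exact ⟨hu, hv⟩
  have hcard := Nat.card_congr (Equiv.ofBijective _ hb)
  unfold ap
  rw [hcard, hc]
  ring

/-- transfer of lower bounds -/
theorem p_WEJ (W : WeierstrassCurve ℤ) (x : ℝ) :
    SSC.NS (SS (-27 * W.c₄) (-54 * W.c₆)) x ≤ (cnt W 0 x : ℝ) := by
  unfold SSC.NS cnt
  have hfin : {p : ℕ | p.Prime ∧ (p : ℝ) ≤ x ∧ ¬ (p : ℤ) ∣ W.Δ ∧ ap W p = 0}.Finite := by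
    apply (Set.finite_Iic ⌊x⌋₊).subset
    rintro p ⟨-, hx, -⟩
    exact Nat.le_floor hx
  have := Set.ncard_le_ncard (s := {p : ℕ | p ∈ SS (-27 * W.c₄) (-54 * W.c₆) ∧ (p : ℝ) ≤ x})
    (t := {p : ℕ | p.Prime ∧ (p : ℝ) ≤ x ∧ ¬ (p : ℤ) ∣ W.Δ ∧ ap W p = 0}) (by
      rintro p ⟨h1, h2⟩
      obtain ⟨h3, h4, h5⟩ := p_WEI W p h1
      exact ⟨h3, h2, h4, h5⟩) hfin
  exact_mod_cast this

/-- the discriminant of the short model -/
theorem p_WEK (W : WeierstrassCurve ℤ) (h : W.Δ ≠ 0) :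
    4 * (-27 * W.c₄) ^ 3 + 27 * (-54 * W.c₆) ^ 2 ≠ 0 := by
  rw [WEI_.disc]
  exact mul_ne_zero (by norm_num) h

end SSF
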