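import Pool.Agent.SSP.TargetsB
import Pool.Agent.SSP.PLC
import Pool.Agent.SSC.Targets

/-!
# MP_d74fca_nt, final assembly (helper22)
-/

open Polynomial

namespace SSF

open SSA SSP

noncomputable section

/-- the supersingular primes of `y^2 = x^3 + A x + B` (good reduction, `p ≥ 5`, exactly `p` affine
points) -/
def SS (A B : ℤ) : Set ℕ := {p | p.Prime ∧ ¬ (p : ℤ) ∣ 6 * (4 * A ^ 3 + 27 * B ^ 2) ∧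
  Nat.card {P : ZMod p × ZMod p // P.2 ^ 2 = P.1 ^ 3 + (A : ZMod p) * P.1 + (B : ZMod p)} = p}

/-- a place of the algebraic closure of `ℚ_p` -/
def plc (p : ℕ) [Fact p.Prime] : Plc p := Classical.choice (p_PLC p)

/-- numerator and denominator of `j` -/
def rj (A : ℤ) : ℤ := 6912 * A ^ 3
def sj (A B : ℤ) : ℤ := 4 * A ^ 3 + 27 * B ^ 2

/-- `p` kills `D` -/
def KK (A B : ℤ) (D p : ℕ) : Prop := ∃ _hp : Fact p.Prime, 5 ≤ p ∧ ¬ (p : ℤ) ∣ 6 * A * B * sj A B ∧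
  ∃ (R : RatFunc (plc p).k) (c : (plc p).k) (σ : (plc p).k ≃+* (plc p).k),
    Dat p (plc p).k (aj ((rj A : ZMod p) / (sj A B : ZMod p)))
      (bj ((rj A : ZMod p) / (sj A B : ZMod p))) D R c σ

/-- the output of the modular function part for the rational number `r/s` -/
def Out (r s : ℤ) (M : ℕ) (ρ : ℝ) : Prop := ∀ ε : ℝ, 0 < ε → ∃ D₀ : ℕ, ∀ D : ℕ, D₀ ≤ D →
  Squarefree D → M ∣ D + 1 → (D.Prime ∨ SSC.Adm M ρ D) → ∃ Q : ℤ[X], Q.Monic ∧ 0 < Q.natDegree ∧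
  (∀ z : ℂ, aeval z Q = 0 → CME ℂ z D) ∧ hv Q r s ≠ 0 ∧
  ((|hv Q r s| : ℤ) : ℝ) ≤ Real.exp ((D : ℝ) ^ (1 / 2 + ε)) ∧
  ((∃ l : ℕ, l.Prime ∧ l ∣ D ∧ (l : ℤ) ∣ hv Q r s) ∨
    ∃ p : ℕ, p.Prime ∧ p ≠ 2 ∧ Odd (padicValInt p (hv Q r s)) ∧ jacobiSym (-(D : ℤ)) p = -1)

/-- OUT: the result of the modular function part -/
def T_OUT : Prop := ∀ r s : ℤ, s ≠ 0 → r ≠ 0 → r ≠ 1728 * s → ∃ (P : Finset ℕ) (ρ : ℝ),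
  SSN.OddPr P ∧ 1 < ρ ∧ ρ ≤ 2 ∧ ∀ M : ℕ, SSN.MM P ∣ M → Out r s M ρ

/-- DATA: the hypotheses of the counting part -/
def T_DATA : Prop := ∀ A B : ℤ, A ≠ 0 → B ≠ 0 → 4 * A ^ 3 + 27 * B ^ 2 ≠ 0 →
  ∃ (M : ℕ) (ρ : ℝ), SSC.Data (SS A B) (KK A B) M ρ

/-- DATN: the hypotheses of `SSN.T_NT` (prime discriminants) and its conclusion -/
def T_DATN : Prop := ∀ A B : ℤ, A ≠ 0 → B ≠ 0 → 4 * A ^ 3 + 27 * B ^ 2 ≠ 0 →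
  ∀ ε : ℝ, 0 < ε → ∀ x₀ : ℝ, ∃ x : ℝ, x₀ ≤ x ∧
    (Real.log x) ^ (2 - ε) ≤ (({p : ℕ | p ∈ SS A B ∧ (p : ℝ) ≤ x}.ncard : ℕ) : ℝ)

end

end SSF
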