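import Pool.Agent.SSF.DATN
import Pool.Agent.SSM.Targets
import Pool.Agent.SSW.Targets

/-!
# MP_d74fca_nt: bridge between the modular function part and the assembly (helper22)
-/

open Polynomial

namespace SSF

open SSA SSP

namespace BRG_

/-- the odd primes `≤ B + 3` -/
noncomputable def Pb (B : ℕ) : Finset ℕ := (Finset.range (B + 4)).filter fun p => p.Prime ∧ p ≠ 2

lemma oddPr (B : ℕ) : SSN.OddPr (Pb B) := by
  intro p hp
  unfold Pb at hp
  rw [Finset.mem_filter] at hp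
  exact hp.2

lemma dvd24 (B : ℕ) : 24 ∣ SSN.MM (Pb B) := by
  unfold SSN.MM
  have h3 : 3 ∈ Pb B := by
    unfold Pb
    rw [Finset.mem_filter, Finset.mem_range]
    exact ⟨by omega, Nat.prime_three, by norm_num⟩
  have : (24 : ℕ) = 8 * 3 := by norm_num
  rw [this]
  exact mul_dvd_mul_left 8 (Finset.dvd_prod_of_mem (fun p => p) h3)

/-- primes dividing `D` are large -/
lemma big {B M D ℓ : ℕ} (hM : SSN.MM (Pb B) ∣ M) (hD : M ∣ D + 1) (hℓ : ℓ.Prime) (h : ℓ ∣ D) :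
    B < ℓ := by
  by_contra hlt
  push Not at hlt
  have h1 : ℓ ∣ D + 1 := by
    refine dvd_trans ?_ (hM.trans hD)
    unfold SSN.MM
    by_cases h2 : ℓ = 2
    · rw [h2]
      exact (by norm_num : 2 ∣ 8).mul_right _
    · refine Dvd.dvd.mul_left (Finset.dvd_prod_of_mem (fun p => p) ?_) 8
      unfold Pb
      rw [Finset.mem_filter, Finset.mem_range]
      exact ⟨by omega, hℓ, h2⟩
  have h3 : ℓ ∣ 1 := (Nat.dvd_add_right h).mp h1
  exact hℓ.one_lt.ne' (Nat.dvd_one.mp h3)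

end BRG_

open BRG_ in
/-- the bridge -/
theorem p_BRG (h1 : SSM.T_OUT) (h2 : SSW.T_CMC) : T_OUT := by
  intro r s hs hr hrs
  obtain ⟨B, ρ, hρ, hO⟩ := h1 r s hs hrs
  refine ⟨Pb B, min ρ 2, oddPr B, lt_min hρ (by norm_num), min_le_right _ _, ?_⟩
  intro M hM ε hε
  obtain ⟨D₀, hD₀⟩ := hO ε hε
  refine ⟨max D₀ (B + 1), ?_⟩
  intro D hD hsq hMD hor
  have hD1 : D₀ ≤ D := le_trans (le_max_left _ _) hD
  have hD2 : B < D := lt_of_lt_of_le (Nat.lt_succ_self B) (le_trans (le_max_right _ _) hD)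
  have hAdm : SSM.Adm B ρ D := by
    refine ⟨hsq, (dvd24 B).trans (hM.trans hMD), hD2, fun ℓ hℓ h => big hM hMD hℓ h, ?_⟩
    rcases hor with h | ⟨a, c, ha, hac, hlt, hρ', -, -⟩
    · exact Or.inl h
    · refine Or.inr ⟨a, c, hac, ha, hlt, lt_of_lt_of_le hρ' ?_⟩
      exact mul_le_mul_of_nonneg_right (min_le_left _ _) (Nat.cast_nonneg a)
  obtain ⟨Q, hQm, hQd, hQC, hQ0, hQb, hQ⟩ := hD₀ D hD1 hAdm
  have hDpos : 0 < D := by omega
  refine ⟨Q, hQm, hQd, ?_, hQ0, ?_, ?_⟩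
  · intro z hz
    obtain ⟨hz0, hz1, t, ⟨ht, α, β, γ, hα, hdet, heq⟩, hJ⟩ := hQC z hz
    have hjt : SSM.J t = SSW.jt ⟨t, ht⟩ := by
      unfold SSM.J SSW.jt
      rw [UpperHalfPlane.ofComplex_apply_of_im_pos ht]
    have hzj : SSW.jt ⟨t, ht⟩ = z := by rw [← hjt, hJ]
    have := h2 ⟨t, ht⟩ D α β γ hDpos hdet (by simpa using heq) (by rw [hzj]; exact hz0)
      (by rw [hzj]; exact hz1)
    rw [hzj] at this
    exact this
  · exact_mod_cast hQb
  · rcases hQ with h | ⟨p, hp, hp2, hns, hodd⟩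
    · exact Or.inl h
    · refine Or.inr ⟨p, hp, hp2, hodd, ?_⟩
      have : Fact p.Prime := ⟨hp⟩
      rw [← jacobiSym.legendreSym.to_jacobiSym, legendreSym.eq_neg_one_iff]
      rintro ⟨x, hx⟩
      apply hns x
      push_cast at hx
      rw [hx]
      ring

open DATN_ in
/-- a discriminant killed by `p` is not `-1` modulo `p` -/
theorem p_H3 (A B : ℤ) : ∀ p ∈ SS A B, ∀ D : ℕ, KK A B D p → ¬ p ∣ D + 1 := by
  rintro p - D ⟨hp, h5p, hg, R, c, σ, hDat⟩ hpl
  obtain ⟨hc0, hc2, hσ, -⟩ := hDat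
  have hk : ((D : (plc p).k)) + 1 = 0 := by
    have := (CharP.cast_eq_zero_iff (plc p).k p (D + 1)).mpr hpl
    push_cast at this
    exact this
  have hc1 : c ^ 2 = 1 := by
    rw [hc2]
    linear_combination -hk
  have hfix : σ c = c := by
    have h12 : (c - 1) * (c + 1) = 0 := by linear_combination hc1
    rcases mul_eq_zero.mp h12 with h | h
    · rw [sub_eq_zero.mp h, map_one]
    · rw [eq_neg_of_add_eq_zero_left h, map_neg, map_one]
  rw [hσ] at hfix
  have h2c : (2 : (plc p).k) * c = 0 := by linear_combination -hfix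
  rcases mul_eq_zero.mp h2c with h | h
  · have h9 : ((2 : ℕ) : (plc p).k) = 0 := by exact_mod_cast h
    have h10 := (CharP.cast_eq_zero_iff (plc p).k p 2).mp h9
    have := Nat.le_of_dvd (by norm_num) h10
    omega
  · exact hc0 h

end SSF
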