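import Pool.Agent.SSF.Targets
import Pool.Agent.SSP.KRM

/-!
# MP_d74fca_nt: the hypotheses of the counting part
-/

open Polynomial

namespace SSF

open SSA SSP

namespace DATA_

/-- primes not dividing `6 A B s` -/
theorem good (A B : ℤ) (p : ℕ) (hp : p.Prime) (h : ¬ (p : ℤ) ∣ 6 * A * B * sj A B) :
    5 ≤ p ∧ ¬ (p : ℤ) ∣ A ∧ ¬ (p : ℤ) ∣ B ∧ ¬ (p : ℤ) ∣ sj A B ∧ ¬ (p : ℤ) ∣ rj A ∧
      ¬ (p : ℤ) ∣ rj A - 1728 * sj A B ∧ ¬ (p : ℤ) ∣ 6 * (4 * A ^ 3 + 27 * B ^ 2) := by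
  have hpp : Prime (p : ℤ) := Nat.prime_iff_prime_int.1 hp
  have h6 : ¬ (p : ℤ) ∣ 6 := fun hd => h (((hd.mul_right A).mul_right B).mul_right _)
  have hA : ¬ (p : ℤ) ∣ A := fun hd => h (((hd.mul_left 6).mul_right B).mul_right _)
  have hB : ¬ (p : ℤ) ∣ B := fun hd => h ((hd.mul_left (6 * A)).mul_right _)
  have hs : ¬ (p : ℤ) ∣ sj A B := fun hd => h (hd.mul_left _)
  have h2 : ¬ (p : ℤ) ∣ 2 := fun hd => h6 (by
    have := hd.mul_left 3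
    norm_num at this
    exact this)
  have h3 : ¬ (p : ℤ) ∣ 3 := fun hd => h6 (by
    have := hd.mul_left 2
    norm_num at this
    exact this)
  refine ⟨?_, hA, hB, hs, ?_, ?_, ?_⟩
  · have h1 := hp.two_le
    by_contra hlt
    have h4 : p = 2 ∨ p = 3 ∨ p = 4 := by omega
    rcases h4 with h4 | h4 | h4
    · exact h2 (by rw [h4]; norm_num)
    · exact h3 (by rw [h4]; norm_num)
    · rw [h4] at hp
      exact absurd hp (by norm_num)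
  · intro hd
    have e : rj A = 2 ^ 8 * (3 ^ 3 * A ^ 3) := by unfold rj; ring
    rw [e] at hd
    rcases hpp.dvd_or_dvd hd with hd | hd
    · exact h2 (hpp.dvd_of_dvd_pow hd)
    rcases hpp.dvd_or_dvd hd with hd | hd
    · exact h3 (hpp.dvd_of_dvd_pow hd)
    · exact hA (hpp.dvd_of_dvd_pow hd)
  · intro hd
    have e : rj A - 1728 * sj A B = 2 ^ 6 * (3 ^ 6 * -(B ^ 2)) := by unfold rj sj; ring
    rw [e] at hd
    rcases hpp.dvd_or_dvd hd with hd | hd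
    · exact h2 (hpp.dvd_of_dvd_pow hd)
    rcases hpp.dvd_or_dvd hd with hd | hd
    · exact h3 (hpp.dvd_of_dvd_pow hd)
    · exact hB (hpp.dvd_of_dvd_pow ((dvd_neg).1 hd))
  · intro hd
    rcases hpp.dvd_or_dvd hd with hd | hd
    · exact h6 hd
    · exact hs hd

/-- the model and the curve -/
theorem mem_SS (h4 : SSP.T_TWI) (A B : ℤ) (p : ℕ) [hf : Fact p.Prime]
    (h : ¬ (p : ℤ) ∣ 6 * A * B * sj A B)
    (hn : Naff p (aj ((rj A : ZMod p) / (sj A B : ZMod p)))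
      (bj ((rj A : ZMod p) / (sj A B : ZMod p))) = p) : p ∈ SS A B := by
  obtain ⟨g5, gA, gB, gs, -, -, g6⟩ := good A B p hf.out h
  exact ⟨hf.out, g6, (h4 p A B g5 gA gB gs).2.1 hn⟩

theorem mod_pos (P : Finset ℕ) (hP : SSN.OddPr P) : 0 < SSN.MM P := by
  unfold SSN.MM
  exact Nat.mul_pos (by norm_num) (Finset.prod_pos fun p hp => (hP p hp).1.pos)

/-- alternative (a) -/
theorem ram (h3 : SSP.T_KRM) (h4 : SSP.T_TWI) (A B : ℤ) (D l M : ℕ)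
    (hM : (6 * A * B * sj A B).natAbs ∣ M) (hMD : M ∣ D + 1) (hsq : Squarefree D) (Q : ℤ[X])
    (hQ : Q.Monic) (hQd : 0 < Q.natDegree) (hC : ∀ z : ℂ, aeval z Q = 0 → CME ℂ z D)
    (hl : l.Prime) (hlD : l ∣ D) (hlv : (l : ℤ) ∣ hv Q (rj A) (sj A B)) : l ∈ SS A B := by
  have hlM : ¬ l ∣ M := by
    intro hd
    have h1 : l ∣ D + 1 := hd.trans hMD
    have h2 : l ∣ 1 := (Nat.dvd_add_right hlD).1 h1
    exact hl.one_lt.ne' (Nat.dvd_one.1 h2)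
  have hbad : ¬ (l : ℤ) ∣ 6 * A * B * sj A B := by
    intro hd
    exact hlM ((Int.natCast_dvd.1 hd).trans hM)
  have : Fact l.Prime := ⟨hl⟩
  obtain ⟨g5, gA, gB, gs, gr, gr', g6⟩ := good A B l hl hbad
  exact mem_SS h4 A B l hbad (h3 l D g5 hsq hlD Q (rj A) (sj A B) hQ hQd gs gr gr' hlv hC)

/-- alternative (b) -/
theorem inert (h2 : SSP.T_KIN) (h4 : SSP.T_TWI) (A B : ℤ) (D p M : ℕ) (hD : 2 ≤ D)
    (hM : (6 * A * B * sj A B).natAbs ∣ M) (hMD : M ∣ D + 1) (hsq : Squarefree D) (Q : ℤ[X])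
    (hQ : Q.Monic) (hv0 : hv Q (rj A) (sj A B) ≠ 0)
    (hC : ∀ z : ℂ, aeval z Q = 0 → CME ℂ z D)
    (hp : p.Prime) (hodd : Odd (padicValInt p (hv Q (rj A) (sj A B))))
    (hj : jacobiSym (-(D : ℤ)) p = -1) :
    p ∈ SS A B ∧ ¬ p ∣ D ∧ KK A B D p ∧ (p : ℤ) ≤ |hv Q (rj A) (sj A B)| := by
  have hf : Fact p.Prime := ⟨hp⟩
  rw [← jacobiSym.legendreSym.to_jacobiSym] at hj
  have hnsq : ¬ IsSquare ((-(D : ℤ) : ℤ) : ZMod p) := (legendreSym.eq_neg_one_iff p).1 hj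
  have hcast : ((-(D : ℤ) : ℤ) : ZMod p) = -(D : ZMod p) := by push_cast; rfl
  rw [hcast] at hnsq
  have hx : ∀ x : ZMod p, x ^ 2 ≠ -(D : ZMod p) := fun x hx => hnsq ⟨x, by rw [← hx]; ring⟩
  have hpD : ¬ p ∣ D := by
    intro hd
    have h5 : (D : ZMod p) = 0 := (ZMod.natCast_eq_zero_iff D p).2 hd
    exact hx 0 (by rw [h5]; simp)
  have hpM : ¬ p ∣ M := by
    intro hd
    have h5 : ((D + 1 : ℕ) : ZMod p) = 0 := (ZMod.natCast_eq_zero_iff _ p).2 (hd.trans hMD)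
    push_cast at h5
    exact hx 1 (by linear_combination h5)
  have hbad : ¬ (p : ℤ) ∣ 6 * A * B * sj A B := by
    intro hd
    exact hpM ((Int.natCast_dvd.1 hd).trans hM)
  obtain ⟨g5, gA, gB, gs, gr, gr', g6⟩ := good A B p hp hbad
  obtain ⟨k1, k2⟩ := h2 p (plc p) D g5 hD hx Q (rj A) (sj A B) hQ gs gr gr' hv0 hodd hC
  refine ⟨mem_SS h4 A B p hbad (k2 hsq), hpD, ⟨hf, g5, hbad, k1⟩, ?_⟩
  have hdv : (p : ℤ) ∣ hv Q (rj A) (sj A B) := by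
    by_contra hnd
    have h5 : padicValInt p (hv Q (rj A) (sj A B)) = 0 :=
      padicValInt.eq_zero_of_not_dvd hnd
    rw [h5] at hodd
    exact absurd hodd (by decide)
  exact Int.le_of_dvd (abs_pos.2 hv0) ((dvd_abs _ _).2 hdv)

end DATA_

theorem p_DATA (h1 : T_OUT) (h2 : SSP.T_KIN) (h3 : SSP.T_KRM) (h4 : SSP.T_TWI) (h5 : SSA.T_SPW)
    (h6 : SSP.T_JHP) : T_DATA := by
  intro A B hA hB hs
  have hs : sj A B ≠ 0 := hs
  have hr : rj A ≠ 0 := mul_ne_zero (by norm_num) (pow_ne_zero 3 hA)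
  have hr' : rj A ≠ 1728 * sj A B := by
    intro h
    have e : rj A - 1728 * sj A B = -46656 * B ^ 2 := by unfold rj sj; ring
    rw [h, sub_self] at e
    have := mul_ne_zero (show (-46656 : ℤ) ≠ 0 by norm_num) (pow_ne_zero 2 hB)
    exact this e.symm
  obtain ⟨P, ρ, hP, hρ1, hρ2, hout⟩ := h1 (rj A) (sj A B) hs hr hr'
  have hN : 0 < (6 * A * B * sj A B).natAbs :=
    Int.natAbs_pos.2 (mul_ne_zero (mul_ne_zero (mul_ne_zero (by norm_num) hA) hB) hs)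
  refine ⟨SSN.MM P * (6 * A * B * sj A B).natAbs, ρ,
    Nat.mul_pos (DATA_.mod_pos P hP) hN, hρ1, hρ2, ?_, ?_, ?_⟩
  · rintro p ⟨hp, h7, -⟩
    refine ⟨hp, ?_⟩
    rintro rfl
    exact h7 ⟨3 * (4 * A ^ 3 + 27 * B ^ 2), by push_cast; ring⟩
  · intro ε hε
    obtain ⟨D₀, hD₀⟩ := hout _ (dvd_mul_right _ _) ε hε
    refine ⟨max D₀ 2, fun D hD hadm => ?_⟩
    obtain ⟨a, c, -, -, -, -, hsq, hMD⟩ := id hadm
    obtain ⟨Q, hQ, hQd, hC, hv0, hvb, halt⟩ := hD₀ D ((le_max_left _ _).trans hD) hsq hMD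
      (Or.inr hadm)
    rcases halt with ⟨l, hl, hlD, hlv⟩ | ⟨p, hp, -, hodd, hj⟩
    · exact Or.inl ⟨l, DATA_.ram h3 h4 A B D l _ (dvd_mul_left _ _) hMD hsq Q hQ hQd hC hl hlD hlv,
        hlD⟩
    · obtain ⟨m1, m2, m3, m4⟩ := DATA_.inert h2 h4 A B D p _ ((le_max_right _ _).trans hD)
        (dvd_mul_left _ _) hMD hsq Q hQ hv0 hC hp hodd hj
      refine Or.inr ⟨p, m1, m2, m3, le_trans ?_ hvb⟩
      have : ((p : ℤ) : ℝ) ≤ ((|hv Q (rj A) (sj A B)| : ℤ) : ℝ) := Int.cast_le.2 m4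
      simpa using this
  · rintro p ⟨hp, h7, h8⟩ G hG hGF
    have hf : Fact p.Prime := ⟨hp⟩
    have hne : G.Nonempty := Finset.card_pos.1 (by omega)
    obtain ⟨D₁, hD₁⟩ := hne
    obtain ⟨-, -, g5, hbad, -⟩ := hGF D₁ hD₁
    obtain ⟨_, gA, gB, gs, gr, gr', g6⟩ := DATA_.good A B p hp hbad
    have key := (h5 p (plc p).k g5 _ _
      (KRM_.hyp p h6 (k := (plc p).k) g5 (rj A) (sj A B) gs gr gr') G (fun D hD => by
        obtain ⟨hadm, hf2, -, -, hdat⟩ := hGF D hD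
        obtain ⟨a, c, -, -, -, -, hsq, -⟩ := hadm
        exact ⟨hsq, hdat⟩)).2 hG
    exact key

end SSF
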