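import Pool.Agent.SSF.Targets

/-!
# MP_d74fca_nt, DATN: assembly for prime discriminants (helper76, for helper22)
-/

open Polynomial

namespace SSF

open SSA SSP

namespace DATN_

/-- the odd primes dividing `6 A B s` -/
noncomputable def bad (A B : ℤ) : Finset ℕ :=
  ((6 * A * B * sj A B).natAbs.primeFactors).filter (fun p => p ≠ 2)

lemma rsub (A B : ℤ) : rj A - 1728 * sj A B = -46656 * B ^ 2 := by
  unfold rj sj; ring

lemma ge5 {p : ℕ} (hp : p.Prime) {n : ℤ} (h : ¬ (p : ℤ) ∣ 6 * n) : 5 ≤ p := by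
  by_contra hlt
  push Not at hlt
  have h2 := hp.two_le
  interval_cases p
  · exact h (Dvd.dvd.mul_right (by norm_num) n)
  · exact h (Dvd.dvd.mul_right (by norm_num) n)
  · exact absurd hp (by norm_num)

lemma parts {p : ℕ} {A B : ℤ} (h : ¬ (p : ℤ) ∣ 6 * A * B * sj A B) :
    ¬ (p : ℤ) ∣ 6 ∧ ¬ (p : ℤ) ∣ A ∧ ¬ (p : ℤ) ∣ B ∧ ¬ (p : ℤ) ∣ sj A B := by
  refine ⟨fun h1 => h ?_, fun h1 => h ?_, fun h1 => h ?_, fun h1 => h ?_⟩
  · exact ((h1.mul_right A).mul_right B).mul_right _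
  · exact ((h1.mul_left 6).mul_right B).mul_right _
  · exact (h1.mul_left (6 * A)).mul_right _
  · exact h1.mul_left _

lemma nr {p : ℕ} (hp : p.Prime) {A B : ℤ} (h : ¬ (p : ℤ) ∣ 6 * A * B * sj A B) :
    ¬ (p : ℤ) ∣ rj A ∧ ¬ (p : ℤ) ∣ rj A - 1728 * sj A B := by
  obtain ⟨h6, hA, hB, hs⟩ := parts h
  have hpp : Prime (p : ℤ) := Nat.prime_iff_prime_int.mp hp
  have h6p : ∀ n : ℕ, ¬ (p : ℤ) ∣ 6 ^ n := fun n hn => h6 (hpp.dvd_of_dvd_pow hn)
  constructor
  · intro h1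
    unfold rj at h1
    rcases hpp.dvd_or_dvd h1 with h2 | h2
    · exact h6p 8 (h2.trans (by norm_num))
    · exact hA (hpp.dvd_of_dvd_pow h2)
  · intro h1
    rw [rsub] at h1
    rcases hpp.dvd_or_dvd h1 with h2 | h2
    · exact h6p 6 (h2.trans (by norm_num))
    · exact hB (hpp.dvd_of_dvd_pow h2)

lemma goodp {p ℓ : ℕ} {A B : ℤ} {P : Finset ℕ} (hne : 6 * A * B * sj A B ≠ 0) (hp : p.Prime)
    (hp2 : p ≠ 2) (hM : SSN.MM (P ∪ bad A B) ∣ ℓ + 1) (hpl : ¬ p ∣ ℓ + 1) :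
    ¬ (p : ℤ) ∣ 6 * A * B * sj A B := by
  intro h
  apply hpl
  have hmem : p ∈ P ∪ bad A B := by
    apply Finset.mem_union_right
    unfold bad
    rw [Finset.mem_filter, Nat.mem_primeFactors]
    exact ⟨⟨hp, Int.natCast_dvd.mp h, Int.natAbs_ne_zero.mpr hne⟩, hp2⟩
  refine dvd_trans ?_ hM
  unfold SSN.MM
  exact (Finset.dvd_prod_of_mem (fun p => p) hmem).mul_left 8

lemma oddPr {P : Finset ℕ} (hP : SSN.OddPr P) (A B : ℤ) : SSN.OddPr (P ∪ bad A B) := by
  intro p hp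
  rcases Finset.mem_union.mp hp with h | h
  · exact hP p h
  · unfold bad at h
    rw [Finset.mem_filter] at h
    exact ⟨Nat.prime_of_mem_primeFactors h.1, h.2⟩

lemma MM_dvd (P R : Finset ℕ) : SSN.MM P ∣ SSN.MM (P ∪ R) := by
  unfold SSN.MM
  exact mul_dvd_mul_left 8 (Finset.prod_dvd_prod_of_subset _ _ _ Finset.subset_union_left)

lemma eight_dvd (P : Finset ℕ) : 8 ∣ SSN.MM P := by
  unfold SSN.MM
  exact dvd_mul_right _ _

/-- membership in `SS` from `Naff = p` -/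
lemma memSS (h4 : SSP.T_TWI) {p : ℕ} [hp : Fact p.Prime] {A B : ℤ}
    (h : ¬ (p : ℤ) ∣ 6 * A * B * sj A B)
    (hN : Naff p (aj ((rj A : ZMod p) / (sj A B : ZMod p)))
      (bj ((rj A : ZMod p) / (sj A B : ZMod p))) = p) : p ∈ SS A B := by
  obtain ⟨h6, hA, hB, hs⟩ := parts h
  have h5 : 5 ≤ p := ge5 hp.out (n := A * B * sj A B) (by simpa [mul_assoc] using h)
  have hT := (h4 p A B h5 hA hB hs).2.mp hN
  refine ⟨hp.out, ?_, hT⟩
  intro h7
  rcases (Nat.prime_iff_prime_int.mp hp.out).dvd_or_dvd h7 with h8 | h8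
  · exact h6 h8
  · exact hs h8

lemma no_sq {p : ℕ} [hp : Fact p.Prime] {a : ℤ} (h : jacobiSym a p = -1) (x : ZMod p) :
    x ^ 2 ≠ (a : ZMod p) := by
  intro hx
  rw [← jacobiSym.legendreSym.to_jacobiSym] at h
  rw [legendreSym.eq_neg_one_iff] at h
  exact h ⟨x, by rw [← hx]; ring⟩

lemma hypzc {p : ℕ} [Fact p.Prime] {k : Type} [Field k] [CharP k p] {a b : ZMod p}
    (h : Hyp a b) : Hyp (zc p k a) (zc p k b) := by
  have hinj : Function.Injective (zc p k) := (zc p k).injective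
  refine ⟨?_, ?_, ?_⟩
  · intro h2
    apply h.two
    apply hinj
    rw [map_ofNat, map_zero, h2]
  · intro h2
    apply h.three
    apply hinj
    rw [map_ofNat, map_zero, h2]
  · intro h2
    apply h.disc
    apply hinj
    rw [map_zero, ← h2, map_add, map_mul, map_mul, map_pow, map_pow, map_ofNat, map_ofNat]

end DATN_

open DATN_ in
theorem p_DATN (h1 : T_OUT) (h2 : SSP.T_KIN) (h3 : SSP.T_KRM) (h4 : SSP.T_TWI) (h5 : SSA.T_SPW)
    (h6 : SSN.T_NT) (h7 : SSP.T_JHP) : T_DATN := by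
  intro A B hA hB hs
  have hsj : sj A B ≠ 0 := hs
  have hr : rj A ≠ 0 := by unfold rj; positivity
  have hrs : rj A ≠ 1728 * sj A B := by
    intro h
    have h8 := rsub A B
    rw [h, sub_self] at h8
    have h9 : B ^ 2 ≠ 0 := by positivity
    apply h9
    linarith
  have hne : 6 * A * B * sj A B ≠ 0 := by
    have : (6 : ℤ) ≠ 0 := by norm_num
    exact mul_ne_zero (mul_ne_zero (mul_ne_zero this hA) hB) hsj
  obtain ⟨P, ρ, hP, hρ1, hρ2, hOut⟩ := h1 (rj A) (sj A B) hsj hr hrs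
  have hOut' := hOut (SSN.MM (P ∪ bad A B)) (MM_dvd P _)
  refine h6 (SS A B) (KK A B) (P ∪ bad A B) (oddPr hP A B) ?_ ?_ ?_ ?_
  · intro p hp
    refine ⟨hp.1, ?_⟩
    rintro rfl
    exact hp.2.1 (Dvd.dvd.mul_right (by norm_num) _)
  · intro ε hε
    obtain ⟨D₀, hD₀⟩ := hOut' ε hε
    refine ⟨D₀, ?_⟩
    intro ℓ hℓ hℓp hM
    obtain ⟨Q, hQm, hQd, hQC, hQ0, hQb, hQ⟩ := hD₀ ℓ hℓ hℓp.squarefree hM (Or.inl hℓp)
    have h8 : 8 ∣ ℓ + 1 := (eight_dvd _).trans hM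
    rcases hQ with ⟨l, hlp, hlD, hlQ⟩ | ⟨p, hpp, hp2, hpo, hpj⟩
    · left
      have hll : l = ℓ := (Nat.prime_dvd_prime_iff_eq hlp hℓp).mp hlD
      subst hll
      have : Fact l.Prime := ⟨hlp⟩
      have hg : ¬ (l : ℤ) ∣ 6 * A * B * sj A B := by
        apply goodp hne hlp _ hM
        · intro h9
          have := (Nat.dvd_add_right (dvd_refl l)).mp h9
          exact hlp.one_lt.ne' (Nat.dvd_one.mp this)
        · rintro rfl
          omega
      have h5l : 5 ≤ l := ge5 hlp (n := A * B * sj A B) (by simpa [mul_assoc] using hg)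
      obtain ⟨hr1, hr2⟩ := nr hlp hg
      obtain ⟨-, -, -, hs1⟩ := parts hg
      exact memSS h4 hg (h3 l l h5l hlp.squarefree (dvd_refl l) Q (rj A) (sj A B) hQm hQd hs1 hr1
        hr2 hlQ hQC)
    · right
      have : Fact p.Prime := ⟨hpp⟩
      have hg : ¬ (p : ℤ) ∣ 6 * A * B * sj A B := by
        apply goodp hne hpp hp2 hM
        intro h9
        have h10 : jacobiSym (-(ℓ : ℤ)) p = 1 := by
          have h11 : -(ℓ : ℤ) ≡ 1 [ZMOD (p : ℤ)] := by
            rw [Int.modEq_iff_dvd, sub_neg_eq_add, add_comm]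
            exact_mod_cast h9
          rw [jacobiSym.mod_left' h11, jacobiSym.one_left]
        rw [h10] at hpj
        norm_num at hpj
      have h5p : 5 ≤ p := ge5 hpp (n := A * B * sj A B) (by simpa [mul_assoc] using hg)
      obtain ⟨hr1, hr2⟩ := nr hpp hg
      obtain ⟨-, -, -, hs1⟩ := parts hg
      obtain ⟨hD, hN⟩ := h2 p (plc p) ℓ h5p hℓp.two_le (fun x => by
        have := no_sq hpj x
        simpa using this) Q (rj A) (sj A B) hQm hs1 hr1 hr2 hQ0 hpo hQC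
      refine ⟨p, memSS h4 hg (hN hℓp.squarefree), ⟨⟨hpp⟩, h5p, hg, hD⟩, ?_⟩
      refine le_trans ?_ hQb
      have hdvd : (p : ℤ) ∣ hv Q (rj A) (sj A B) := by
        by_contra hcon
        have := padicValInt.eq_zero_of_not_dvd hcon
        rw [this] at hpo
        exact absurd hpo (by decide)
      have hle : (p : ℤ) ≤ |hv Q (rj A) (sj A B)| :=
        Int.le_of_dvd (abs_pos.mpr hQ0) ((dvd_abs _ _).mpr hdvd)
      exact_mod_cast hle
  · rintro ℓ p ⟨hp, h5p, hg, R, c, σ, hDat⟩ h8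
    obtain ⟨hc0, hc2, hσ, -⟩ := hDat
    have hpl : p ∣ ℓ + 1 := (dvd_mul_left p 8).trans h8
    have hk : ((ℓ : (plc p).k)) + 1 = 0 := by
      have := (CharP.cast_eq_zero_iff (plc p).k p (ℓ + 1)).mpr hpl
      push_cast at this
      exact this
    have hc1 : c ^ 2 = 1 := by
      rw [hc2]
      linear_combination -hk
    have hfix : σ c = c := by
      have h12 : (c - 1) * (c + 1) = 0 := by linear_combination hc1
      rcases mul_eq_zero.mp h12 with h | h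
      · rw [sub_eq_zero.mp h, map_one]
      · rw [eq_neg_of_add_eq_zero_left h, map_neg, map_one]
    rw [hσ] at hfix
    have h2c : (2 : (plc p).k) * c = 0 := by linear_combination -hfix
    rcases mul_eq_zero.mp h2c with h | h
    · have h9 : ((2 : ℕ) : (plc p).k) = 0 := by exact_mod_cast h
      have h10 := (CharP.cast_eq_zero_iff (plc p).k p 2).mp h9
      have := Nat.le_of_dvd (by norm_num) h10
      omega
    · exact hc0 h
  · intro p hpS G hG hall
    have hGne : G.Nonempty := Finset.card_pos.mp (by omega)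
    obtain ⟨ℓ₀, hℓ₀⟩ := hGne
    obtain ⟨-, -, hp, h5p, hg, -⟩ := hall ℓ₀ hℓ₀
    obtain ⟨-, hA1, hB1, hs1⟩ := parts hg
    have hH := (h4 p A B h5p hA1 hB1 hs1).1
    have hH2 : Hyp (zc p (plc p).k (aj ((rj A : ZMod p) / (sj A B : ZMod p))))
        (zc p (plc p).k (bj ((rj A : ZMod p) / (sj A B : ZMod p)))) := hypzc hH
    obtain ⟨a, b, c, w, ha, hd, hw, hv⟩ := (h5 p (plc p).k h5p _ _ hH2 G (fun ℓ hℓ => by
      obtain ⟨h10, h11, h12⟩ := hall ℓ hℓ
      obtain ⟨hp', h5', hg', R, c, σ, hD⟩ := h12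
      exact ⟨h10.squarefree, R, c, σ, hD⟩)).2 hG
    exact ⟨a, b, c, ha, hd, ⟨w ^ 2, hw⟩, hv⟩

end SSF
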