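import Pool.Agent.SSN.AX
import Pool.Agent.SSN.CHR
import Pool.Agent.SSN.DIR
import Pool.Agent.SSN.EST
import Pool.Agent.SSN.KIL
import Pool.Agent.SSN.LAT
import Pool.Agent.SSN.LBD
import Pool.Agent.SSN.NT
import Pool.Agent.SSN.OMG
import Pool.Agent.SSN.POS
import Pool.Agent.SSN.PS
import Pool.Agent.SSN.RED
import Pool.Agent.SSN.RL
import Pool.Agent.SSN.ROOT
import Pool.Agent.SSN.RRM
import Pool.Agent.SSN.SEL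
import Pool.Agent.SSN.SHH
import Pool.Agent.SSN.SIEG
import Pool.Agent.SSN.SIEVE
import Pool.Agent.SSN.SUM
import Pool.Agent.SSN.TRIV
import Pool.Agent.SSN.Targets
import Pool.Agent.SSN.W
import Pool.Agent.SSN.ZS
import Pool.Agent.SSA.API
import Pool.Agent.SSA.CAR
import Pool.Agent.SSA.CLS
import Pool.Agent.SSA.CMP
import Pool.Agent.SSA.DDA
import Pool.Agent.SSA.DDC
import Pool.Agent.SSA.DG1
import Pool.Agent.SSA.Defs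
import Pool.Agent.SSA.FRB
import Pool.Agent.SSA.GRD
import Pool.Agent.SSA.HB
import Pool.Agent.SSA.HC
import Pool.Agent.SSA.HIN
import Pool.Agent.SSA.HLV
import Pool.Agent.SSA.INERT
import Pool.Agent.SSA.INS
import Pool.Agent.SSA.LOG
import Pool.Agent.SSA.LT2
import Pool.Agent.SSA.NPI
import Pool.Agent.SSA.ORD
import Pool.Agent.SSA.ORT
import Pool.Agent.SSA.PAR
import Pool.Agent.SSA.QFA
import Pool.Agent.SSA.RAM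
import Pool.Agent.SSA.RFC
import Pool.Agent.SSA.RFD
import Pool.Agent.SSA.RFG
import Pool.Agent.SSA.RFM
import Pool.Agent.SSA.RK4
import Pool.Agent.SSA.RKA
import Pool.Agent.SSA.RM2
import Pool.Agent.SSA.SPW
import Pool.Agent.SSA.SS
import Pool.Agent.SSA.TAU
import Pool.Agent.SSA.TRS
import Pool.Agent.SSA.Targets
import Pool.Agent.SSA.TargetsB
import Pool.Agent.SSA.UCC
import Pool.Agent.SSA.XPM
import Pool.Agent.SSP.AUT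
import Pool.Agent.SSP.CEM
import Pool.Agent.SSP.CHO
import Pool.Agent.SSP.DGN
import Pool.Agent.SSP.Defs
import Pool.Agent.SSP.INR
import Pool.Agent.SSP.ISO
import Pool.Agent.SSP.JHP
import Pool.Agent.SSP.KIN
import Pool.Agent.SSP.KRM
import Pool.Agent.SSP.NCR
import Pool.Agent.SSP.NRT
import Pool.Agent.SSP.PARL
import Pool.Agent.SSP.PLC
import Pool.Agent.SSP.RBX
import Pool.Agent.SSP.RDP
import Pool.Agent.SSP.RIN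
import Pool.Agent.SSP.RMR
import Pool.Agent.SSP.RNI
import Pool.Agent.SSP.RQA
import Pool.Agent.SSP.RQC
import Pool.Agent.SSP.RQS
import Pool.Agent.SSP.TRX
import Pool.Agent.SSP.TWI
import Pool.Agent.SSP.Targets
import Pool.Agent.SSP.TargetsB
import Pool.Agent.SSP.UNQ
import Pool.Agent.SSW.ADD
import Pool.Agent.SSW.CMC
import Pool.Agent.SSW.CMN
import Pool.Agent.SSW.CTB
import Pool.Agent.SSW.DUP
import Pool.Agent.SSW.EVE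
import Pool.Agent.SSW.EVR
import Pool.Agent.SSW.FIB
import Pool.Agent.SSW.INJ
import Pool.Agent.SSW.LNK
import Pool.Agent.SSW.MUL
import Pool.Agent.SSW.NRM
import Pool.Agent.SSW.RIG
import Pool.Agent.SSW.RPA
import Pool.Agent.SSW.RPB
import Pool.Agent.SSW.RPE
import Pool.Agent.SSW.RPX
import Pool.Agent.SSW.SCL
import Pool.Agent.SSW.SND
import Pool.Agent.SSW.Targets
import Pool.Agent.SSM.CMP
import Pool.Agent.SSM.DEC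
import Pool.Agent.SSM.DER
import Pool.Agent.SSM.Defs
import Pool.Agent.SSM.EIS
import Pool.Agent.SSM.ELL
import Pool.Agent.SSM.ESM
import Pool.Agent.SSM.FUN
import Pool.Agent.SSM.HNF
import Pool.Agent.SSM.INJ
import Pool.Agent.SSM.INV
import Pool.Agent.SSM.JAC
import Pool.Agent.SSM.JBD
import Pool.Agent.SSM.JEX
import Pool.Agent.SSM.KR0
import Pool.Agent.SSM.KR1
import Pool.Agent.SSM.KR2
import Pool.Agent.SSM.KR3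
import Pool.Agent.SSM.KRO
import Pool.Agent.SSM.LAT
import Pool.Agent.SSM.LDC
import Pool.Agent.SSM.MPI
import Pool.Agent.SSM.MUL
import Pool.Agent.SSM.NVN
import Pool.Agent.SSM.OUT
import Pool.Agent.SSM.PAR
import Pool.Agent.SSM.PER
import Pool.Agent.SSM.POL
import Pool.Agent.SSM.PRM
import Pool.Agent.SSM.PSG
import Pool.Agent.SSM.PSM
import Pool.Agent.SSM.RDS
import Pool.Agent.SSM.RE1
import Pool.Agent.SSM.RE2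
import Pool.Agent.SSM.RNG
import Pool.Agent.SSM.SG1
import Pool.Agent.SSM.SG2
import Pool.Agent.SSM.SGN
import Pool.Agent.SSM.SIZ
import Pool.Agent.SSM.SPE
import Pool.Agent.SSM.SQD
import Pool.Agent.SSM.SQM
import Pool.Agent.SSM.SUR
import Pool.Agent.SSM.SYM
import Pool.Agent.SSM.TAU
import Pool.Agent.SSM.Targets
import Pool.Agent.SSM.UNX
import Pool.Agent.SSC.ASM
import Pool.Agent.SSC.BON
import Pool.Agent.SSC.BRU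
import Pool.Agent.SSC.CHE
import Pool.Agent.SSC.CHEB
import Pool.Agent.SSC.CHG
import Pool.Agent.SSC.CHI
import Pool.Agent.SSC.CLM
import Pool.Agent.SSC.CNA
import Pool.Agent.SSC.DIC
import Pool.Agent.SSC.ESY
import Pool.Agent.SSC.FINA
import Pool.Agent.SSC.FINB
import Pool.Agent.SSC.FINC
import Pool.Agent.SSC.HLO
import Pool.Agent.SSC.KIL
import Pool.Agent.SSC.LOW
import Pool.Agent.SSC.MER
import Pool.Agent.SSC.RTB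
import Pool.Agent.SSC.SPL
import Pool.Agent.SSC.TAI
import Pool.Agent.SSC.TOT
import Pool.Agent.SSC.TUP
import Pool.Agent.SSC.Targets
import Pool.Agent.SSC.Targets2
import Pool.Agent.SSC.WWW
import Pool.Agent.SSF.BRG
import Pool.Agent.SSF.DATA
import Pool.Agent.SSF.DATN
import Pool.Agent.SSF.Targets

/-!
# MP_d74fca_nt: all parts proved, unconditional statements (helper22)
-/

namespace SSF.All

theorem SSN_CHR : SSN.T_CHR :=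
  SSN.p_CHR

theorem SSN_DIR : SSN.T_DIR :=
  SSN.p_DIR

theorem SSN_EST : SSN.T_EST :=
  SSN.p_EST

theorem SSN_LAT : SSN.T_LAT :=
  SSN.p_LAT

theorem SSN_LBD : SSN.T_LBD :=
  SSN.p_LBD

theorem SSN_OMG : SSN.T_OMG :=
  SSN.p_OMG

theorem SSN_POS : SSN.T_POS :=
  SSN.p_POS

theorem SSN_PS : SSN.T_PS :=
  SSN.p_PS

theorem SSN_RED : SSN.T_RED :=
  SSN.p_RED

theorem SSN_ROOT : SSN.T_ROOT :=
  SSN.p_ROOT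

theorem SSN_RRM : SSN.T_RRM :=
  SSN.p_RRM

theorem SSN_SEL : SSN.T_SEL :=
  SSN.p_SEL

theorem SSN_SHH : SSN.T_SHH :=
  SSN.p_SHH SSN_RRM

theorem SSN_SIEG : SSN.T_SIEG :=
  SSN.p_SIEG SSN_CHR SSN_RRM SSN_LBD SSN_EST SSN_POS SSN_OMG

theorem SSN_SUM : SSN.T_SUM :=
  SSN.p_SUM

theorem SSN_TRIV : SSN.T_TRIV :=
  SSN.p_TRIV

theorem SSN_ZS : SSN.T_ZS :=
  SSN.p_ZS

theorem SSA_API : SSA.T_API :=
  SSA.p_API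

theorem SSA_HIN : SSA.T_HIN :=
  SSA.p_HIN

theorem SSA_HLV : SSA.T_HLV :=
  SSA.p_HLV SSA_API

theorem SSA_QFA : SSA.T_QFA :=
  SSA.p_QFA

theorem SSA_RFD : SSA.T_RFD :=
  SSA.p_RFD

theorem SSA_RFG : SSA.T_RFG :=
  SSA.p_RFG

theorem SSA_RFM : SSA.T_RFM :=
  SSA.p_RFM SSA_RFD

theorem SSA_TAU : SSA.T_TAU :=
  SSA.p_TAU SSA_API SSA_RFM

theorem SSA_TRS : SSA.T_TRS :=
  SSA.p_TRS SSA_API

theorem SSA_XPM : SSA.T_XPM :=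
  SSA.p_XPM SSA_API

theorem SSP_AUT : SSP.T_AUT :=
  SSP.p_AUT

theorem SSP_ISO : SSP.T_ISO :=
  SSP.p_ISO

theorem SSP_JHP : SSP.T_JHP :=
  SSP.p_JHP

theorem SSP_NRT : SSP.T_NRT :=
  SSP.p_NRT

theorem SSP_PARL : SSP.T_PARL :=
  SSP.p_PARL

theorem SSP_PLC : SSP.T_PLC :=
  SSP.p_PLC

theorem SSP_RIN : SSP.T_RIN :=
  SSP.p_RIN

theorem SSP_TRX : SSP.T_TRX :=
  SSP.p_TRX SSP_JHP SSA_API SSA_RFM SSA_XPM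

theorem SSP_TWI : SSP.T_TWI :=
  SSP.p_TWI SSP_JHP

theorem SSW_CTB : SSW.T_CTB :=
  SSW.p_CTB

theorem SSW_EVE : SSW.T_EVE :=
  SSW.p_EVE

theorem SSW_EVR : SSW.T_EVR :=
  SSW.p_EVR

theorem SSW_LNK : SSW.T_LNK :=
  SSW.p_LNK

theorem SSW_NRM : SSW.T_NRM :=
  SSW.p_NRM SSW_LNK

theorem SSW_RIG : SSW.T_RIG :=
  SSW.p_RIG

theorem SSW_SND : SSW.T_SND :=
  SSW.p_SND

theorem SSM_DEC : SSM.T_DEC :=
  SSM.p_DEC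

theorem SSM_DER : SSM.T_DER :=
  SSM.p_DER

theorem SSM_EIS : SSM.T_EIS :=
  SSM.p_EIS

theorem SSM_FUN : SSM.T_FUN :=
  SSM.p_FUN

theorem SSM_HNF : SSM.T_HNF :=
  SSM.p_HNF

theorem SSM_INV : SSM.T_INV :=
  SSM.p_INV

theorem SSM_JAC : SSM.T_JAC :=
  SSM.p_JAC

theorem SSM_JEX : SSM.T_JEX :=
  SSM.p_JEX

theorem SSM_KR0 : SSM.T_KR0 :=
  SSM.p_KR0

theorem SSM_KR1 : SSM.T_KR1 :=
  SSM.p_KR1 SSM_JEX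

theorem SSM_KR2 : SSM.T_KR2 :=
  SSM.p_KR2 SSM_JEX

theorem SSM_LAT : SSM.T_LAT :=
  SSM.p_LAT

theorem SSM_PRM : SSM.T_PRM :=
  SSM.p_PRM SSM_HNF SSM_INV

theorem SSM_RDS : SSM.T_RDS :=
  SSM.p_RDS SSM_INV SSM_FUN

theorem SSM_RNG : SSM.T_RNG :=
  SSM.p_RNG

theorem SSM_SPE : SSM.T_SPE :=
  SSM.p_SPE

theorem SSM_SQM : SSM.T_SQM :=
  SSM.p_SQM

theorem SSM_SUR : SSM.T_SUR :=
  SSM.p_SUR SSM_INV SSM_FUN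

theorem SSM_TAU : SSM.T_TAU :=
  SSM.p_TAU

theorem SSM_UNX : SSM.T_UNX :=
  SSM.p_UNX

theorem SSC_BON : SSC.T_BON :=
  SSC.p_BON

theorem SSC_BRU : SSC.T_BRU :=
  SSC.p_BRU SSC_BON

theorem SSC_CHE : SSC.T_CHE :=
  SSC.p_CHE SSN_CHR SSN_RRM

theorem SSC_CHEB : SSC.T_CHEB :=
  SSC.p_CHEB

theorem SSC_ESY : SSC.T_ESY :=
  SSC.p_ESY

theorem SSC_KIL : SSC.T_KIL :=
  SSC.p_KIL SSN_RED

theorem SSC_MER : SSC.T_MER :=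
  SSC.p_MER

theorem SSC_RTB : SSC.T_RTB :=
  SSC.p_RTB

theorem SSC_SPL : SSC.T_SPL :=
  SSC.p_SPL

theorem SSC_TAI : SSC.T_TAI :=
  SSC.p_TAI

theorem SSC_TOT : SSC.T_TOT :=
  SSC.p_TOT

theorem SSC_TUP : SSC.T_TUP :=
  SSC.p_TUP

theorem SSN_AX : SSN.T_AX :=
  SSN.p_AX SSN_CHR

theorem SSN_RL : SSN.T_RL :=
  SSN.p_RL SSN_SIEG SSN_AX SSN_RRM

theorem SSN_W : SSN.T_W :=
  SSN.p_W SSN_ZS SSN_PS

theorem SSA_CLS : SSA.T_CLS :=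
  SSA.p_CLS SSA_API SSA_RFG

theorem SSA_DDA : SSA.T_DDA :=
  SSA.p_DDA SSA_API SSA_RFD SSA_XPM

theorem SSA_DDC : SSA.T_DDC :=
  SSA.p_DDC SSA_API SSA_RFD

theorem SSA_DG1 : SSA.T_DG1 :=
  SSA.p_DG1 SSA_API SSA_TRS

theorem SSA_GRD : SSA.T_GRD :=
  SSA.p_GRD SSA_QFA

theorem SSA_LOG : SSA.T_LOG :=
  SSA.p_LOG SSA_RFD

theorem SSA_LT2 : SSA.T_LT2 :=
  SSA.p_LT2 SSA_QFA SSA_GRD

theorem SSA_NPI : SSA.T_NPI :=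
  SSA.p_NPI SSA_API SSA_RFG

theorem SSA_PAR : SSA.T_PAR :=
  SSA.p_PAR SSA_API SSA_XPM SSA_RFG

theorem SSA_RFC : SSA.T_RFC :=
  SSA.p_RFC SSA_RFD SSA_RFG

theorem SSA_RKA : SSA.T_RKA :=
  SSA.p_RKA SSA_QFA SSA_GRD

theorem SSP_CEM : SSP.T_CEM :=
  SSP.p_CEM SSP_JHP SSA_API

theorem SSP_DGN : SSP.T_DGN :=
  SSP.p_DGN SSA_API SSA_PAR SSA_QFA SSA_DDA SSA_RFG

theorem SSP_RDP : SSP.T_RDP :=
  SSP.p_RDP SSP_RIN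

theorem SSP_RQA : SSP.T_RQA :=
  SSP.p_RQA SSP_RIN SSP_RDP SSA_RFD

theorem SSP_RQC : SSP.T_RQC :=
  SSP.p_RQC SSP_RDP SSP_RQA SSA_RFC SSA_RFM

theorem SSP_RQS : SSP.T_RQS :=
  SSP.p_RQS SSP_RDP

theorem SSP_UNQ : SSP.T_UNQ :=
  SSP.p_UNQ SSA_API SSA_XPM SSA_TRS SSA_DDA

theorem SSW_ADD : SSW.T_ADD :=
  SSW.p_ADD SSW_SND

theorem SSW_DUP : SSW.T_DUP :=
  SSW.p_DUP SSW_SND SSW_ADD

theorem SSW_FIB : SSW.T_FIB :=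
  SSW.p_FIB SSW_ADD SSW_CTB

theorem SSW_INJ : SSW.T_INJ :=
  SSW.p_INJ SSW_LNK SSW_RIG

theorem SSW_MUL : SSW.T_MUL :=
  SSW.p_MUL SSW_FIB SSW_EVE

theorem SSW_RPB : SSW.T_RPB :=
  SSW.p_RPB SSW_SND SSW_CTB SSW_EVR SSA_API

theorem SSW_RPE : SSW.T_RPE :=
  SSW.p_RPE SSW_SND SSW_CTB SSW_EVR SSW_MUL SSA_API

theorem SSW_RPX : SSW.T_RPX :=
  SSW.p_RPX SSW_CTB SSW_EVR SSW_RPB

theorem SSW_SCL : SSW.T_SCL :=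
  SSW.p_SCL SSA_API SSA_RFC SSA_RFD SSA_XPM

theorem SSM_INJ : SSM.T_INJ :=
  SSM.p_INJ SSM_EIS SSM_LAT

theorem SSM_JBD : SSM.T_JBD :=
  SSM.p_JBD SSM_JEX

theorem SSM_KR3 : SSM.T_KR3 :=
  SSM.p_KR3 SSM_JEX SSM_UNX

theorem SSM_KRO : SSM.T_KRO :=
  SSM.p_KRO SSM_JEX SSM_RNG SSM_KR0 SSM_KR1 SSM_KR2 SSM_KR3 SSM_INV

theorem SSM_LDC : SSM.T_LDC :=
  SSM.p_LDC SSM_JBD

theorem SSM_MUL : SSM.T_MUL :=
  SSM.p_MUL SSM_INV SSM_INJ SSM_DER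

theorem SSM_NVN : SSM.T_NVN :=
  SSM.p_NVN SSM_INJ

theorem SSM_PAR : SSM.T_PAR :=
  SSM.p_PAR SSM_INV SSM_SPE SSM_INJ SSM_HNF

theorem SSM_PER : SSM.T_PER :=
  SSM.p_PER SSM_UNX

theorem SSM_POL : SSM.T_POL :=
  SSM.p_POL SSM_JEX SSM_INV SSM_UNX

theorem SSM_PSM : SSM.T_PSM :=
  SSM.p_PSM SSM_JEX SSM_RNG

theorem SSM_RE1 : SSM.T_RE1 :=
  SSM.p_RE1 SSM_INV SSM_INJ SSM_SPE SSM_JBD

theorem SSM_RE2 : SSM.T_RE2 :=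
  SSM.p_RE2 SSM_INV SSM_INJ SSM_SPE SSM_JBD

theorem SSM_SG1 : SSM.T_SG1 :=
  SSM.p_SG1 SSM_INV SSM_RE1

theorem SSM_SG2 : SSM.T_SG2 :=
  SSM.p_SG2 SSM_INV SSM_RE2

theorem SSM_SGN : SSM.T_SGN :=
  SSM.p_SGN SSM_RE1 SSM_RE2 SSM_SG1 SSM_SG2

theorem SSM_SIZ : SSM.T_SIZ :=
  SSM.p_SIZ SSM_RDS SSM_JBD SSM_TAU

theorem SSM_SYM : SSM.T_SYM :=
  SSM.p_SYM SSM_HNF SSM_INV SSM_JBD

theorem SSC_ASM : SSC.T_ASM :=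
  SSC.p_ASM SSC_TUP SSC_KIL

theorem SSC_CHG : SSC.T_CHG :=
  SSC.p_CHG SSN_CHR SSN_RRM SSN_LBD SSN_AX

theorem SSC_CHI : SSC.T_CHI :=
  SSC.p_CHI SSC_CHG SSC_CHE

theorem SSC_CLM : SSC.T_CLM :=
  SSC.p_CLM SSC_RTB

theorem SSC_CNA : SSC.T_CNA :=
  SSC.p_CNA SSC_SPL SSC_CLM SSN_LAT SSN_RED

theorem SSC_HLO : SSC.T_HLO :=
  SSC.p_HLO SSC_BRU SSC_MER

theorem SSC_LOW : SSC.T_LOW :=
  SSC.p_LOW SSC_HLO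

theorem SSC_WWW : SSC.T_WWW :=
  SSC.p_WWW SSC_MER SSC_CHI

theorem SSA_CAR : SSA.T_CAR :=
  SSA.p_CAR SSA_RFD SSA_RFC SSA_LOG

theorem SSA_CMP : SSA.T_CMP :=
  SSA.p_CMP SSA_API SSA_RFC

theorem SSA_FRB : SSA.T_FRB :=
  SSA.p_FRB SSA_API SSA_RFC SSA_RFG

theorem SSA_HB : SSA.T_HB :=
  SSA.p_HB SSA_NPI SSA_PAR SSA_QFA

theorem SSA_HC : SSA.T_HC :=
  SSA.p_HC SSA_API SSA_PAR SSA_QFA SSA_FRB SSA_NPI SSA_HB SSA_CMP SSA_RFC SSA_RFG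

theorem SSA_INS : SSA.T_INS :=
  SSA.p_INS SSA_API SSA_RFD SSA_RFC

theorem SSA_ORD : SSA.T_ORD :=
  SSA.p_ORD SSA_API SSA_PAR SSA_QFA SSA_GRD SSA_FRB SSA_INS SSA_DDA SSA_DDC SSA_CAR SSA_HIN SSA_HC SSA_NPI SSA_HB

theorem SSA_ORT : SSA.T_ORT :=
  SSA.p_ORT SSA_API SSA_RFM SSA_RFG SSA_TAU SSA_PAR

theorem SSA_RAM : SSA.T_RAM :=
  SSA.p_RAM SSA_API SSA_DDA SSA_INS SSA_FRB SSA_PAR SSA_QFA SSA_NPI SSA_HB SSA_DG1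

theorem SSA_RK4 : SSA.T_RK4 :=
  SSA.p_RK4 SSA_API SSA_XPM SSA_TRS SSA_PAR SSA_QFA SSA_GRD SSA_RKA SSA_CLS SSA_HLV

theorem SSA_RM2 : SSA.T_RM2 :=
  SSA.p_RM2 SSA_PAR SSA_QFA SSA_INS SSA_FRB SSA_NPI SSA_HB SSA_ORD

theorem SSA_SS : SSA.T_SS :=
  SSA.p_SS SSA_CAR SSA_HIN SSA_HB

theorem SSA_UCC : SSA.T_UCC :=
  SSA.p_UCC SSA_DDA SSA_INS SSA_FRB SSA_PAR SSA_QFA

theorem SSP_CHO : SSP.T_CHO :=
  SSP.p_CHO SSP_JHP SSP_DGN SSA_API SSA_RFC SSA_PAR SSA_DDA SSA_RFD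

theorem SSP_NCR : SSP.T_NCR :=
  SSP.p_NCR SSP_RIN SSP_RQA SSP_RQS SSA_RFD

theorem SSP_RNI : SSP.T_RNI :=
  SSP.p_RNI SSP_RIN SSP_RQA SSP_DGN SSA_API

theorem SSW_RPA : SSW.T_RPA :=
  SSW.p_RPA SSW_SND SSW_CTB SSW_EVR SSW_ADD SSW_DUP SSW_RPB SSA_API

theorem SSM_ELL : SSM.T_ELL :=
  SSM.p_ELL SSM_INJ SSM_SPE

theorem SSM_ESM : SSM.T_ESM :=
  SSM.p_ESM SSM_JEX SSM_RNG SSM_PER SSM_PRM

theorem SSM_MPI : SSM.T_MPI :=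
  SSM.p_MPI SSM_ESM SSM_PSM SSM_POL SSM_JBD SSM_PRM

theorem SSM_PSG : SSM.T_PSG :=
  SSM.p_PSG SSM_SGN

theorem SSM_SQD : SSM.T_SQD :=
  SSM.p_SQD SSM_MPI SSM_SYM SSM_KRO

theorem SSC_DIC : SSC.T_DIC :=
  SSC.p_DIC SSC_LOW SSC_ASM SSC_WWW SSC_ESY SSC_CHEB SSC_TUP

theorem SSC_FINA : SSC.T_FINA :=
  SSC.p_FINA SSC_DIC

theorem SSC_FINB : SSC.T_FINB :=
  SSC.p_FINB SSC_DIC

theorem SSA_INERT : SSA.T_INERT :=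
  SSA.p_INERT SSA_RFD SSA_ORT SSA_UCC SSA_SS SSA_HB SSA_RK4 SSA_LT2 SSA_QFA SSA_PAR SSA_DDA SSA_NPI

theorem SSA_SPW : SSA.T_SPW :=
  SSA.p_SPW SSA_API SSA_RFM SSA_RFG SSA_SS SSA_HB SSA_RK4 SSA_LT2 SSA_QFA SSA_PAR SSA_TAU SSA_NPI SSA_CMP

theorem SSP_INR : SSP.T_INR :=
  SSP.p_INR SSP_AUT SSP_RIN SSP_RQA SSP_RQC SSP_NCR SSP_DGN SSP_RNI SSP_UNQ SSP_JHP SSP_CHO SSP_PARL SSA_RFC SSA_RFM

theorem SSP_KIN : SSP.T_KIN :=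
  SSP.p_KIN SSP_INR SSP_ISO SSP_TRX SSP_CEM SSA_SS SSA_ORT

theorem SSP_RBX : SSP.T_RBX :=
  SSP.p_RBX SSP_RIN SSP_RQA SSP_RQC SSP_NCR SSP_DGN SSP_RNI SSP_JHP SSP_NRT SSA_API SSA_RFC SSA_RFD SSA_PAR SSA_DDA

theorem SSP_RMR : SSP.T_RMR :=
  SSP.p_RMR SSP_RIN SSP_RQA SSP_RQC SSP_NCR SSP_DGN SSP_RNI SSP_JHP SSP_CHO SSP_NRT SSA_RFC

theorem SSW_CMN : SSW.T_CMN :=
  SSW.p_CMN SSW_RPB SSW_RPA SSW_RPX SSW_RPE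

theorem SSM_CMP : SSM.T_CMP :=
  SSM.p_CMP SSM_INV SSM_SUR SSM_HNF SSM_MPI SSM_LDC SSM_DEC SSM_SQD SSM_SQM SSM_ELL SSM_MUL SSM_PAR

theorem SSM_OUT : SSM.T_OUT :=
  SSM.p_OUT SSM_CMP SSM_PSG SSM_NVN SSM_SIZ SSM_JAC

theorem SSP_KRM : SSP.T_KRM :=
  SSP.p_KRM SSP_PLC SSP_RBX SSP_ISO SSP_TRX SSA_RM2 SSP_JHP

theorem SSW_CMC : SSW.T_CMC :=
  SSW.p_CMC SSW_CMN SSW_SCL SSW_NRM

theorem SSF_OUT : SSF.T_OUT :=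
  SSF.p_BRG SSM_OUT SSW_CMC

theorem SSF_DATA : SSF.T_DATA :=
  SSF.p_DATA SSF_OUT SSP_KIN SSP_KRM SSP_TWI SSA_SPW SSP_JHP


end SSF.All
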